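import Pool.Agent.Helper44.UpperFinal

/-!
# The order of magnitude of `L(p)`

For a prime `p` let `L(p)` be the number of distinct integers `n` for which
`a * b = n * p + 1` with `1 ≤ a, b ≤ p - 1`.  We prove that
`L(p)` has exact order `p / ((log p)^δ (log log p)^(3/2))`,
`δ = 1 - (1 + log log 2) / log 2 = 0.0860713...`.
-/

set_option autoImplicit false

open Filter

namespace Pool.Agent.Results.MP_5b95d4_nt.OrderOfMagnitude

/-- `valueSet p`: the integers `n` such that `a * b = n * p + 1` for some `a, b` in `[1, p - 1]`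
(so that `b` is the inverse of `a` modulo `p` in `[1, p - 1]`). -/
def valueSet (p : ℕ) : Set ℕ :=
  {n : ℕ | ∃ a b : ℕ, 1 ≤ a ∧ a ≤ p - 1 ∧ 1 ≤ b ∧ b ≤ p - 1 ∧ a * b = n * p + 1}

/-- `L(p)`: the number of distinct values of `(a * ā - 1) / p`. -/
noncomputable def L (p : ℕ) : ℕ := (valueSet p).ncard

/-- The exponent `δ = 1 - (1 + log log 2) / log 2 = 0.0860713...`. -/
noncomputable def δ : ℝ := 1 - (1 + Real.log (Real.log 2)) / Real.log 2

theorem L_eq {p : ℕ} (hp : p.Prime) : L p = Pool.Agent.Helper44.Lp p := by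
  have hp2 := hp.two_le
  have h : valueSet p = (((Finset.Icc 1 (p - 1)).image
      (fun a : ℕ => (a * ((a : ZMod p)⁻¹).val - 1) / p) : Finset ℕ) : Set ℕ) := by
    ext n
    simp only [valueSet, Set.mem_setOf_eq, Finset.coe_image, Set.mem_image, Finset.mem_coe,
      Finset.mem_Icc]
    constructor
    · rintro ⟨a, b, ha1, ha2, hb1, hb2, hab⟩
      have h1 : a * b ≡ 1 [MOD p] := by
        rw [hab]
        have : n * p + 1 ≡ 0 + 1 [MOD p] :=
          Nat.ModEq.add_right 1 (Nat.modEq_zero_iff_dvd.mpr (Dvd.intro_left _ rfl))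
        simpa using this
      have : Fact p.Prime := ⟨hp⟩
      have hb : ((a : ZMod p)⁻¹).val = b := by
        have h1 : (a : ZMod p) * (b : ZMod p) = 1 := by
          have := (ZMod.natCast_eq_natCast_iff (a * b) 1 p).mpr h1
          push_cast at this
          exact this
        have h2 : (a : ZMod p)⁻¹ = (b : ZMod p) := inv_eq_of_mul_eq_one_right h1
        rw [h2, ZMod.val_natCast_of_lt (by omega)]
      refine ⟨a, ⟨ha1, ha2⟩, ?_⟩
      rw [hb, hab, Nat.add_sub_cancel, Nat.mul_div_cancel _ hp.pos]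
    · rintro ⟨a, ⟨ha1, ha2⟩, rfl⟩
      obtain ⟨h1, h2, h3⟩ := Pool.Agent.Helper44.inv_val_spec hp ha1 ha2
      refine ⟨a, _, ha1, ha2, h1, h2, ?_⟩
      have h4 : 1 ≤ a * ((a : ZMod p)⁻¹).val := Nat.mul_pos ha1 h1
      have h5 : p ∣ a * ((a : ZMod p)⁻¹).val - 1 := (Nat.modEq_iff_dvd' h4).mp h3.symm
      rw [Nat.div_mul_cancel h5]
      omega
  unfold L Pool.Agent.Helper44.Lp
  rw [h, Set.ncard_coe_finset]

/-- The exact order of magnitude of `L(p)`. -/
theorem result : ∃ c C : ℝ, 0 < c ∧ 0 < C ∧ ∃ p₀ : ℕ, ∀ p : ℕ, p.Prime → p₀ ≤ p →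
    c * (p / ((Real.log p) ^ δ * (Real.log (Real.log p)) ^ (3 / 2 : ℝ))) ≤ (L p : ℝ) ∧
    (L p : ℝ) ≤ C * (p / ((Real.log p) ^ δ * (Real.log (Real.log p)) ^ (3 / 2 : ℝ))) := by
  obtain ⟨c, hc, h1⟩ := Pool.Agent.Helper44.Lp_lower
  obtain ⟨C, hC, h2⟩ := Pool.Agent.Helper44.Lp_upper
  obtain ⟨p₁, hp₁⟩ := eventually_atTop.mp h1
  obtain ⟨p₂, hp₂⟩ := eventually_atTop.mp h2
  refine ⟨c, C, hc, hC, max p₁ p₂, ?_⟩
  intro p hp hpp
  have e1 := hp₁ p ((le_max_left _ _).trans hpp) hp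
  have e2 := hp₂ p ((le_max_right _ _).trans hpp) hp
  rw [L_eq hp]
  have hδ : δ = Pool.Agent.Helper44.del := rfl
  rw [hδ, ← mul_div_assoc, ← mul_div_assoc]
  exact ⟨e1, e2⟩

end Pool.Agent.Results.MP_5b95d4_nt.OrderOfMagnitude
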